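import Mathlib

/-!
# A quantum random access code without a simultaneous per-bit decoder
-/

namespace Pool.Agent.Results.MP_49fc99_mp.NoPerBitDecoder

open Matrix
open scoped ComplexOrder

/-- Density operators. -/
def IsDensity {ι : Type} [Fintype ι] (ρ : Matrix ι ι ℂ) : Prop := ρ.PosSemidef ∧ ρ.trace = 1

/-- Positive operator valued measures with outcome set `S`. -/
structure IsPOVM {ι S : Type} [Fintype ι] [DecidableEq ι] [Fintype S] (Q : S → Matrix ι ι ℂ) :
    Prop where
  pos : ∀ s, (Q s).PosSemidef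
  sum : ∑ s, Q s = 1

/-- The probability of the outcome with operator `M` in the state `ρ`. -/
noncomputable def prob {ι : Type} [Fintype ι] (M ρ : Matrix ι ι ℂ) : ℝ := (M * ρ).trace.re

/-- Random access codes on the Hilbert space with basis `ι`. -/
def IsCode {ι : Type} [Fintype ι] [DecidableEq ι] (n : ℕ) (p : ℝ)
    (ρ : (Fin n → Bool) → Matrix ι ι ℂ) : Prop :=
  (∀ x, IsDensity (ρ x)) ∧
    ∀ i, ∃ M : Bool → Matrix ι ι ℂ, IsPOVM M ∧ ∀ x, p ≤ prob (M (x i)) (ρ x)

/-- `(n, m, p)`-quantum random access codes. -/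
def IsQRAC (n m : ℕ) (p : ℝ)
    (ρ : (Fin n → Bool) → Matrix (Fin (2 ^ m)) (Fin (2 ^ m)) ℂ) : Prop := IsCode n p ρ

/-- The probability that the `i`-th bit of the outcome differs from the `i`-th bit of `x`. -/
noncomputable def errProb {ι : Type} [Fintype ι] {n : ℕ} (Q : (Fin n → Bool) → Matrix ι ι ℂ)
    (ρ : (Fin n → Bool) → Matrix ι ι ℂ) (x : Fin n → Bool) (i : Fin n) : ℝ :=
  ∑ y ∈ Finset.univ.filter (fun y : Fin n → Bool => y i ≠ x i), prob (Q y) (ρ x)

/-! ### The anticommuting involutions -/

/-- Bit strings of length five. -/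
abbrev S := Fin 5 → Bool

/-- Flip one bit. -/
def flip (j : Fin 5) (s : S) : S := Function.update s j (!(s j))

theorem flip_flip (j : Fin 5) (s : S) : flip j (flip j s) = s := by
  unfold flip; simp

theorem flip_comm (j k : Fin 5) (s : S) : flip j (flip k s) = flip k (flip j s) := by
  by_cases h : j = k
  · rw [h]
  · unfold flip
    rw [Function.update_of_ne h, Function.update_of_ne (Ne.symm h), Function.update_comm h]

/-- The Jordan-Wigner sign. -/
def jw (j : Fin 5) (s : S) : ℤ := ∏ i ∈ Finset.univ.filter (fun i => i < j), if s i then -1 else 1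

theorem jw_sq : ∀ (j : Fin 5) (s : S), jw j s * jw j (flip j s) = 1 := by
  decide +kernel

theorem jw_anti : ∀ (j k : Fin 5) (s : S), j ≠ k →
    jw j s * jw k (flip j s) = -(jw k s * jw j (flip k s)) := by
  decide +kernel

theorem jw_flip : ∀ (j : Fin 5) (s : S), jw j (flip j s) = jw j s := by
  decide +kernel

/-- The involutions. -/
def A (j : Fin 5) : Matrix S S ℂ := Matrix.of fun s t => if t = flip j s then (jw j s : ℂ) else 0

theorem A_mul_apply (j k : Fin 5) (s t : S) :
    (A j * A k) s t = if t = flip k (flip j s) then ((jw j s * jw k (flip j s) : ℤ) : ℂ) else 0 := by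
  rw [Matrix.mul_apply, Finset.sum_eq_single (flip j s)]
  · simp only [A, Matrix.of_apply, if_true]
    split_ifs
    · push_cast; ring
    · simp
  · intro u _ hu
    simp only [A, Matrix.of_apply]
    rw [if_neg hu, zero_mul]
  · intro h; simp at h

theorem A_sq (j : Fin 5) : A j * A j = 1 := by
  ext s t
  rw [A_mul_apply, flip_flip, jw_sq, Matrix.one_apply]
  simp [eq_comm]

theorem A_anti {j k : Fin 5} (h : j ≠ k) : A j * A k = -(A k * A j) := by
  ext s t
  rw [Matrix.neg_apply, A_mul_apply, A_mul_apply, flip_comm k j, jw_anti j k s h]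
  split_ifs
  · push_cast; ring
  · simp

theorem A_H (j : Fin 5) : (A j)ᴴ = A j := by
  ext s t
  rw [Matrix.conjTranspose_apply]
  simp only [A, Matrix.of_apply]
  by_cases h : t = flip j s
  · subst h
    rw [if_pos rfl, if_pos (flip_flip j s).symm, jw_flip]
    simp
  · rw [if_neg h, if_neg]
    · simp
    · rintro rfl
      exact h (flip_flip j t).symm

theorem A_trace (j : Fin 5) : (A j).trace = 0 := by
  rw [Matrix.trace]
  refine Finset.sum_eq_zero fun s _ => ?_
  rw [Matrix.diag_apply]
  simp only [A, Matrix.of_apply]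
  rw [if_neg]
  intro h
  have := congrFun h j
  simp [flip] at this

theorem A_trace_mul (j k : Fin 5) : (A j * A k).trace = if j = k then 32 else 0 := by
  split_ifs with h
  · subst h
    rw [A_sq, Matrix.trace_one]
    simp
  · have h1 : (A j * A k).trace = -(A j * A k).trace := by
      conv_lhs => rw [A_anti h, Matrix.trace_neg, Matrix.trace_mul_comm]
    linear_combination (1 / 2) * h1

/-- The sign of a bit. -/
def sg (b : Bool) : ℂ := if b then -1 else 1

theorem sg_sq (b : Bool) : sg b * sg b = 1 := by cases b <;> simp [sg]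

theorem sg_star (b : Bool) : star (sg b) = sg b := by cases b <;> simp [sg]

/-- The spectral projections. -/
noncomputable def Pr (j : Fin 5) (b : Bool) : Matrix S S ℂ := (1 / 2 : ℂ) • (1 + sg b • A j)

theorem Pr_H (j : Fin 5) (b : Bool) : (Pr j b)ᴴ = Pr j b := by
  unfold Pr
  rw [Matrix.conjTranspose_smul, Matrix.conjTranspose_add, Matrix.conjTranspose_one,
    Matrix.conjTranspose_smul, A_H, sg_star]
  congr 1
  simp

theorem Pr_sq (j : Fin 5) (b : Bool) : Pr j b * Pr j b = Pr j b := by
  unfold Pr
  rw [smul_mul_assoc, mul_smul_comm, smul_smul]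
  have : (1 + sg b • A j) * (1 + sg b • A j) = (2 : ℂ) • (1 + sg b • A j) := by
    rw [mul_add, add_mul, add_mul, mul_one, one_mul, mul_one, smul_mul_assoc, mul_smul_comm,
      smul_smul, sg_sq, one_smul, A_sq, two_smul]
    abel
  rw [this, smul_smul]
  norm_num

theorem Pr_pos (j : Fin 5) (b : Bool) : (Pr j b).PosSemidef := by
  have := Matrix.posSemidef_conjTranspose_mul_self (Pr j b)
  rwa [Pr_H, Pr_sq] at this

theorem Pr_sum (j : Fin 5) : Pr j true + Pr j false = 1 := by
  unfold Pr
  rw [← smul_add]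
  have : (1 + sg true • A j) + (1 + sg false • A j) = (2 : ℂ) • (1 : Matrix S S ℂ) := by
    simp only [sg, if_true, Bool.false_eq_true, if_false, neg_smul, one_smul, two_smul]
    abel
  rw [this, smul_smul]
  norm_num

theorem Pr_trace (i j : Fin 5) (b c : Bool) :
    (Pr i b * Pr j c).trace = if i = j then 8 * (1 + sg b * sg c) else 8 := by
  unfold Pr
  rw [smul_mul_assoc, mul_smul_comm, smul_smul, Matrix.trace_smul]
  have : ((1 + sg b • A i) * (1 + sg c • A j)).trace =
      32 + sg b * sg c * (if i = j then 32 else 0) := by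
    have e : (1 + sg b • A i) * (1 + sg c • A j) =
        1 + sg b • A i + (sg c • A j + (sg b * sg c) • (A i * A j)) := by
      simp only [mul_add, add_mul, mul_one, one_mul, smul_mul_assoc, mul_smul_comm, smul_add,
        smul_smul]
      rw [mul_comm (sg c) (sg b)]
    rw [e]
    simp only [Matrix.trace_add, Matrix.trace_smul, A_trace, Matrix.trace_one, A_trace_mul]
    simp
  rw [this]
  split_ifs <;> simp only [smul_eq_mul] <;> ring

/-! ### The code -/

/-- The base points of the five pairs. -/
def base : Fin 5 → S :=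
  ![![false, false, false, false, false], ![true, false, true, false, false],
    ![false, true, false, false, false], ![false, false, false, false, true],
    ![true, true, false, true, false]]

/-- The index of the pair containing a string, if any. -/
def sp (x : S) : Option (Fin 5) :=
  (List.finRange 5).find? fun j => decide (x = base j ∨ x = flip j (base j))

theorem sp_base : ∀ j : Fin 5, sp (base j) = some j := by decide +kernel

theorem sp_flip : ∀ j : Fin 5, sp (flip j (base j)) = some j := by decide +kernel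

theorem base_self : ∀ j : Fin 5, base j j = false := by decide +kernel

/-- The classical part of the encoding. -/
noncomputable def cl (x : S) : Matrix S S ℂ :=
  match sp x with
  | some j => (1 / 4 : ℂ) • (Matrix.single x x 1 + Matrix.single (flip j x) (flip j x) 1)
  | none => Matrix.single x x 1

/-- The quantum part of the encoding. -/
noncomputable def qu (x : S) : Matrix S S ℂ :=
  match sp x with
  | some j => (1 / 32 : ℂ) • Pr j (x j)
  | none => 0

/-- The states. -/
noncomputable def rho (x : S) : Matrix (S ⊕ S) (S ⊕ S) ℂ := Matrix.fromBlocks (cl x) 0 0 (qu x)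

/-- The decoders. -/
noncomputable def dec (i : Fin 5) (b : Bool) : Matrix (S ⊕ S) (S ⊕ S) ℂ :=
  Matrix.fromBlocks (Matrix.diagonal fun s => if s i = b then 1 else 0) 0 0 (Pr i b)

theorem trace_blocks (P B C R : Matrix S S ℂ) :
    (Matrix.fromBlocks P B C R).trace = P.trace + R.trace := by
  simp [Matrix.trace, Fintype.sum_sum_type]

theorem blocks_pos {P R : Matrix S S ℂ} (hP : P.PosSemidef) (hR : R.PosSemidef) :
    (Matrix.fromBlocks P 0 0 R).PosSemidef := by
  refine Matrix.PosSemidef.of_dotProduct_mulVec_nonneg ?_ ?_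
  · unfold Matrix.IsHermitian
    rw [Matrix.fromBlocks_conjTranspose, hP.1, hR.1]
    simp
  · intro x
    have h1 := hP.dotProduct_mulVec_nonneg (x ∘ Sum.inl)
    have h2 := hR.dotProduct_mulVec_nonneg (x ∘ Sum.inr)
    have h3 : star x ⬝ᵥ (Matrix.fromBlocks P 0 0 R *ᵥ x) =
        star (x ∘ Sum.inl) ⬝ᵥ (P *ᵥ (x ∘ Sum.inl)) + star (x ∘ Sum.inr) ⬝ᵥ (R *ᵥ (x ∘ Sum.inr)) := by
      rw [Matrix.fromBlocks_mulVec]
      simp only [dotProduct, Fintype.sum_sum_type, Sum.elim_inl, Sum.elim_inr,
        Matrix.zero_mulVec, add_zero, zero_add, Pi.star_apply, Function.comp_apply]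
    rw [h3]
    exact add_nonneg h1 h2

theorem single_pos (x : S) : (Matrix.single x x (1 : ℂ)).PosSemidef := by
  have := Matrix.posSemidef_vecMulVec_self_star (Pi.single x (1 : ℂ))
  have h2 : Matrix.vecMulVec (Pi.single x (1 : ℂ)) (star (Pi.single x (1 : ℂ))) =
      Matrix.single x x (1 : ℂ) := by
    ext i j
    simp only [Matrix.vecMulVec_apply, Pi.star_apply, Matrix.single_apply, Pi.single_apply]
    rcases eq_or_ne i x with rfl | h3
    · rcases eq_or_ne j i with rfl | h4
      · simp
      · simp [h4, h4.symm]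
    · simp [h3, h3.symm]
  rwa [h2] at this

theorem real_smul_pos {M : Matrix S S ℂ} (hM : M.PosSemidef) {c : ℝ} (hc : 0 ≤ c) :
    ((c : ℂ) • M).PosSemidef := by
  refine hM.smul ?_
  rw [Complex.le_def]
  simp [hc]

theorem rho_density (x : S) : IsDensity (rho x) := by
  unfold rho cl qu
  rcases h : sp x with _ | j
  · simp only
    refine ⟨blocks_pos (single_pos x) Matrix.PosSemidef.zero, ?_⟩
    rw [trace_blocks]
    simp
  · simp only
    refine ⟨blocks_pos ?_ ?_, ?_⟩
    · have := real_smul_pos ((single_pos x).add (single_pos (flip j x))) (c := 1 / 4) (by norm_num)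
      simpa using this
    · have := real_smul_pos (Pr_pos j (x j)) (c := 1 / 32) (by norm_num)
      simpa using this
    · rw [trace_blocks, Matrix.trace_smul, Matrix.trace_smul, Matrix.trace_add]
      have h1 : (Pr j (x j)).trace = 16 := by
        unfold Pr
        rw [Matrix.trace_smul, Matrix.trace_add, Matrix.trace_smul, A_trace, Matrix.trace_one]
        simp
        norm_num
      rw [h1]
      simp
      norm_num

theorem dec_povm (i : Fin 5) : IsPOVM (dec i) := by
  constructor
  · intro b
    unfold dec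
    refine blocks_pos ?_ (Pr_pos i b)
    refine Matrix.PosSemidef.diagonal ?_
    intro s
    simp only [Pi.zero_apply]
    split_ifs
    · exact zero_le_one
    · exact le_rfl
  · rw [Fintype.sum_bool]
    unfold dec
    rw [Matrix.fromBlocks_add, Pr_sum, Matrix.diagonal_add]
    rw [← Matrix.fromBlocks_one]
    congr 1
    · rw [← Matrix.diagonal_one]
      congr 1
      funext s
      rcases h : s i <;> simp
    · simp
    · simp

theorem dec_prob (i : Fin 5) (x : S) : 3 / 4 ≤ prob (dec i (x i)) (rho x) := by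
  unfold prob dec rho
  rw [Matrix.fromBlocks_multiply, trace_blocks]
  simp only [zero_mul, mul_zero, add_zero, zero_add]
  have hd : ∀ y : S, ((Matrix.diagonal fun s : S => if s i = x i then (1 : ℂ) else 0) *
      Matrix.single y y 1).trace = if y i = x i then 1 else 0 := by
    intro y
    rw [Matrix.trace, Finset.sum_eq_single y]
    · rw [Matrix.diag_apply, Matrix.diagonal_mul, Matrix.single_apply]
      simp
    · intro z _ hz
      rw [Matrix.diag_apply, Matrix.diagonal_mul, Matrix.single_apply]
      have hne : ¬ (y = z ∧ y = z) := fun h => hz h.1.symm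
      rw [if_neg hne, mul_zero]
    · intro h; simp at h
  unfold cl qu
  rcases h : sp x with _ | j
  · simp only
    rw [hd, if_pos rfl, mul_zero, Matrix.trace_zero, add_zero, Complex.one_re]
    norm_num
  · simp only
    rw [mul_smul_comm, mul_smul_comm, mul_add, Matrix.trace_smul, Matrix.trace_smul,
      Matrix.trace_add, hd, hd, if_pos rfl, Pr_trace]
    by_cases hij : i = j
    · subst hij
      have h1 : flip i x i ≠ x i := by simp [flip]
      rw [if_neg h1, if_pos rfl, sg_sq]
      simp only [smul_eq_mul]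
      norm_num
    · have h1 : flip j x i = x i := by
        unfold flip
        rw [Function.update_of_ne hij]
      rw [if_pos h1, if_neg hij]
      simp only [smul_eq_mul]
      norm_num

theorem rho_code : IsCode 5 (3 / 4) rho :=
  ⟨rho_density, fun i => ⟨dec i, dec_povm i, fun x => dec_prob i x⟩⟩

/-! ### No simultaneous decoder -/

theorem fromBlocks_sub' (P B C R P' B' C' R' : Matrix S S ℂ) :
    Matrix.fromBlocks P B C R - Matrix.fromBlocks P' B' C' R' =
      Matrix.fromBlocks (P - P') (B - B') (C - C') (R - R') := by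
  ext i j
  rcases i with i | i <;> rcases j with j | j <;> rfl

/-- The difference of the two states of a pair. -/
theorem rho_diff (j : Fin 5) : rho (base j) - rho (flip j (base j)) =
    Matrix.fromBlocks 0 0 0 ((1 / 32 : ℂ) • A j) := by
  unfold rho cl qu
  rw [sp_base, sp_flip]
  simp only
  rw [flip_flip, fromBlocks_sub']
  congr 1
  · rw [add_comm, sub_self]
  · simp
  · simp
  · have h1 : flip j (base j) j = true := by simp [flip, base_self]
    rw [h1, base_self, ← smul_sub]
    congr 1
    unfold Pr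
    rw [← smul_sub]
    simp only [sg, if_true, Bool.false_eq_true, if_false, neg_smul, one_smul]
    have : (1 : Matrix S S ℂ) + A j - (1 + -A j) = (2 : ℂ) • A j := by
      rw [two_smul]; abel
    rw [this, smul_smul]
    norm_num

/-- The signed sum of the involutions. -/
noncomputable def G (y : S) : Matrix S S ℂ := ∑ j, sg (y j) • A j

theorem G_H (y : S) : (G y)ᴴ = G y := by
  unfold G
  rw [Matrix.conjTranspose_sum]
  refine Finset.sum_congr rfl fun j _ => ?_
  rw [Matrix.conjTranspose_smul, A_H, sg_star]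

theorem G_sq (y : S) : G y * G y = (5 : ℂ) • 1 := by
  have h1 : G y * G y = ∑ j, ∑ k, (sg (y j) * sg (y k)) • (A j * A k) := by
    unfold G
    rw [Finset.sum_mul]
    refine Finset.sum_congr rfl fun j _ => ?_
    rw [Finset.mul_sum]
    refine Finset.sum_congr rfl fun k _ => ?_
    rw [smul_mul_assoc, mul_smul_comm, smul_smul]
  have h2 : G y * G y = ∑ j, ∑ k, (sg (y j) * sg (y k)) • (A k * A j) := by
    rw [h1, Finset.sum_comm]
    refine Finset.sum_congr rfl fun j _ => Finset.sum_congr rfl fun k _ => ?_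
    rw [mul_comm]
  have h3 : G y * G y + G y * G y = (10 : ℂ) • 1 := by
    conv_lhs => rw [h1]
    rw [← h1]
    conv_lhs => arg 1; rw [h1]
    rw [h2, ← Finset.sum_add_distrib]
    have h4 : ∀ j : Fin 5, ∑ k, (sg (y j) * sg (y k)) • (A j * A k) +
        ∑ k, (sg (y j) * sg (y k)) • (A k * A j) = (2 : ℂ) • (1 : Matrix S S ℂ) := by
      intro j
      rw [← Finset.sum_add_distrib, Finset.sum_eq_single j]
      · rw [sg_sq, one_smul, A_sq, two_smul]
      · intro k _ hk
        rw [← smul_add, A_anti (Ne.symm hk), neg_add_cancel, smul_zero]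
      · intro h; simp at h
    simp only [h4]
    rw [Finset.sum_const, Finset.card_univ, Fintype.card_fin, ← Nat.cast_smul_eq_nsmul ℂ,
      smul_smul]
    norm_num
  have h5 : (2 : ℂ) • (G y * G y) = (2 : ℂ) • ((5 : ℂ) • 1) := by
    rw [two_smul, h3, smul_smul]
    norm_num
  exact smul_right_injective _ (two_ne_zero) h5

theorem trace_mul_G_le {R : Matrix S S ℂ} (hR : R.PosSemidef) (y : S) :
    (R * G y).trace.re ≤ 9 / 4 * R.trace.re := by
  have h1 : (0 : ℂ) ≤ (R * ((G y - (2 : ℂ) • 1)ᴴ * (G y - (2 : ℂ) • 1))).trace := by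
    have h2 := (hR.mul_mul_conjTranspose_same (G y - (2 : ℂ) • 1)).trace_nonneg
    have h3 : (R * ((G y - (2 : ℂ) • 1)ᴴ * (G y - (2 : ℂ) • 1))).trace =
        ((G y - (2 : ℂ) • 1) * R * (G y - (2 : ℂ) • 1)ᴴ).trace := by
      rw [← mul_assoc, Matrix.trace_mul_comm, ← mul_assoc]
    rw [h3]; exact h2
  have h4 : (G y - (2 : ℂ) • 1)ᴴ * (G y - (2 : ℂ) • 1) = (9 : ℂ) • 1 - (4 : ℂ) • G y := by
    rw [Matrix.conjTranspose_sub, G_H, Matrix.conjTranspose_smul, Matrix.conjTranspose_one]
    have : star (2 : ℂ) = 2 := by simp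
    rw [this, sub_mul, mul_sub, mul_sub, G_sq, mul_smul_comm, mul_one, smul_mul_assoc, one_mul,
      smul_mul_assoc, one_mul, smul_smul]
    have e1 : (9 : ℂ) • (1 : Matrix S S ℂ) = (5 : ℂ) • 1 + ((2 : ℂ) * 2) • 1 := by
      rw [← add_smul]; norm_num
    have e2 : (4 : ℂ) • G y = (2 : ℂ) • G y + (2 : ℂ) • G y := by
      rw [← add_smul]; norm_num
    rw [e1, e2]
    abel
  rw [h4, mul_sub, mul_smul_comm, mul_one, mul_smul_comm, Matrix.trace_sub, Matrix.trace_smul,
    Matrix.trace_smul, Complex.le_def] at h1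
  have h5 := h1.1
  simp only [smul_eq_mul, Complex.sub_re, Complex.mul_re, Complex.zero_re] at h5
  norm_num at h5
  linarith

/-- The real sign. -/
def rs (b : Bool) : ℝ := if b then -1 else 1

theorem sum_split (Q : S → Matrix (S ⊕ S) (S ⊕ S) ℂ) (hQ : IsPOVM Q) (x : S) (i : Fin 5) :
    ∑ y, rs (y i) * prob (Q y) (rho x) = rs (x i) * (1 - 2 * errProb Q rho x i) := by
  have htot : ∑ y, prob (Q y) (rho x) = 1 := by
    unfold prob
    rw [← Complex.re_sum, ← Matrix.trace_sum, ← Finset.sum_mul, hQ.sum, one_mul,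
      (rho_density x).2, Complex.one_re]
  have h1 : ∀ y : S, rs (y i) * prob (Q y) (rho x) =
      rs (x i) * prob (Q y) (rho x) - (if y i ≠ x i then 2 * rs (x i) * prob (Q y) (rho x) else 0) := by
    intro y
    rcases h2 : y i <;> rcases h3 : x i <;> simp [rs] <;> ring
  simp only [h1]
  rw [Finset.sum_sub_distrib, ← Finset.mul_sum, htot, ← Finset.sum_filter, ← Finset.mul_sum]
  unfold errProb
  ring

theorem no_decoder (Q : S → Matrix (S ⊕ S) (S ⊕ S) ℂ) (hQ : IsPOVM Q) :
    ∃ x i, 3 / 8 < errProb Q rho x i := by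
  by_contra hcon
  push Not at hcon
  -- each pair gives a lower bound
  have hpair : ∀ j : Fin 5, 16 ≤ ∑ y, rs (y j) * ((Q y).toBlocks₂₂ * A j).trace.re := by
    intro j
    have h1 := sum_split Q hQ (base j) j
    have h2 := sum_split Q hQ (flip j (base j)) j
    have h3 : flip j (base j) j = true := by simp [flip, base_self]
    rw [h3] at h2
    rw [base_self] at h1
    simp only [rs, Bool.false_eq_true, if_false, if_true, one_mul] at h1 h2
    have e1 := hcon (base j) j
    have e2 := hcon (flip j (base j)) j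
    have h4 : ∀ y, ((Q y).toBlocks₂₂ * A j).trace.re =
        32 * (prob (Q y) (rho (base j)) - prob (Q y) (rho (flip j (base j)))) := by
      intro y
      unfold prob
      rw [← Complex.sub_re, ← Matrix.trace_sub, ← mul_sub, rho_diff]
      conv_rhs => rw [← Matrix.fromBlocks_toBlocks (Q y)]
      rw [Matrix.fromBlocks_multiply, trace_blocks]
      simp only [mul_zero, zero_add, add_zero, Matrix.trace_zero]
      rw [mul_smul_comm, Matrix.trace_smul, smul_eq_mul]
      have : ((1 / 32 : ℂ) * ((Q y).toBlocks₂₂ * A j).trace).re =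
          (1 / 32 : ℝ) * ((Q y).toBlocks₂₂ * A j).trace.re := by
        have h6 : (1 / 32 : ℂ) = ((1 / 32 : ℝ) : ℂ) := by push_cast; rfl
        rw [h6, Complex.re_ofReal_mul]
      rw [this]; ring
    have h5 : ∑ y, rs (y j) * ((Q y).toBlocks₂₂ * A j).trace.re =
        32 * (∑ y, rs (y j) * prob (Q y) (rho (base j)) -
          ∑ y, rs (y j) * prob (Q y) (rho (flip j (base j)))) := by
      rw [← Finset.sum_sub_distrib, Finset.mul_sum]
      refine Finset.sum_congr rfl fun y _ => ?_
      rw [h4]; ring
    rw [h5]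
    simp only [rs] at *
    linarith
  have hlow : 80 ≤ ∑ j : Fin 5, ∑ y, rs (y j) * ((Q y).toBlocks₂₂ * A j).trace.re := by
    calc (80 : ℝ) = ∑ j : Fin 5, (16 : ℝ) := by simp; norm_num
      _ ≤ _ := Finset.sum_le_sum fun j _ => hpair j
  have hG : ∀ y, ∑ j, rs (y j) * ((Q y).toBlocks₂₂ * A j).trace.re =
      ((Q y).toBlocks₂₂ * G y).trace.re := by
    intro y
    unfold G
    rw [Finset.mul_sum, Matrix.trace_sum, Complex.re_sum]
    refine Finset.sum_congr rfl fun j _ => ?_
    rw [mul_smul_comm, Matrix.trace_smul, smul_eq_mul]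
    have : sg (y j) = ((rs (y j) : ℝ) : ℂ) := by
      rcases y j <;> simp [sg, rs]
    rw [this, Complex.re_ofReal_mul]
  rw [Finset.sum_comm] at hlow
  simp only [hG] at hlow
  have hup : ∑ y, ((Q y).toBlocks₂₂ * G y).trace.re ≤ ∑ y, 9 / 4 * ((Q y).toBlocks₂₂).trace.re := by
    refine Finset.sum_le_sum fun y _ => trace_mul_G_le ?_ y
    exact (hQ.pos y).submatrix Sum.inr
  have htr : ∑ y, ((Q y).toBlocks₂₂).trace.re = 32 := by
    rw [← Complex.re_sum, ← Matrix.trace_sum]
    have h1 : ∑ y, (Q y).toBlocks₂₂ = 1 := by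
      have h2 := congrArg Matrix.toBlocks₂₂ hQ.sum
      rw [← Matrix.fromBlocks_one, Matrix.toBlocks_fromBlocks₂₂] at h2
      rw [← h2]
      ext s t
      rw [Matrix.sum_apply]
      simp only [Matrix.toBlocks₂₂, Matrix.of_apply]
      rw [Matrix.sum_apply]
    rw [h1, Matrix.trace_one]
    simp
  rw [← Finset.mul_sum, htr] at hup
  linarith

/-! ### Transfer to qubits -/

/-- The index equivalence. -/
noncomputable def eqv : (S ⊕ S) ≃ Fin (2 ^ 6) := Fintype.equivOfCardEq (by simp [S])

theorem trace_submatrix_equiv {ι κ : Type} [Fintype ι] [Fintype κ] (e : ι ≃ κ)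
    (M : Matrix κ κ ℂ) : (M.submatrix e e).trace = M.trace := by
  rw [Matrix.trace, Matrix.trace]
  exact Equiv.sum_comp e (fun i => M i i)

theorem prob_submatrix {ι κ : Type} [Fintype ι] [Fintype κ] (e : ι ≃ κ)
    (M R : Matrix κ κ ℂ) : prob (M.submatrix e e) (R.submatrix e e) = prob M R := by
  unfold prob
  rw [Matrix.submatrix_mul_equiv, trace_submatrix_equiv]

theorem density_submatrix {ι κ : Type} [Fintype ι] [Fintype κ] (e : ι ≃ κ)
    {R : Matrix κ κ ℂ} (h : IsDensity R) : IsDensity (R.submatrix e e) :=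
  ⟨h.1.submatrix e, by rw [trace_submatrix_equiv]; exact h.2⟩

theorem povm_submatrix {ι κ T : Type} [Fintype ι] [Fintype κ] [DecidableEq ι] [DecidableEq κ]
    [Fintype T] (e : ι ≃ κ) {Q : T → Matrix κ κ ℂ} (h : IsPOVM Q) :
    IsPOVM fun s => (Q s).submatrix e e := by
  constructor
  · intro s; exact (h.pos s).submatrix e
  · ext i j
    have h1 := congrFun (congrFun h.sum (e i)) (e j)
    rw [Matrix.sum_apply] at h1 ⊢
    simp only [Matrix.submatrix_apply]
    rw [h1, Matrix.one_apply, Matrix.one_apply]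
    simp

theorem code_submatrix {ι κ : Type} [Fintype ι] [Fintype κ] [DecidableEq ι] [DecidableEq κ]
    (e : ι ≃ κ) {n : ℕ} {p : ℝ} {ρ : (Fin n → Bool) → Matrix κ κ ℂ} (h : IsCode n p ρ) :
    IsCode n p fun x => (ρ x).submatrix e e := by
  refine ⟨fun x => density_submatrix e (h.1 x), fun i => ?_⟩
  obtain ⟨M, h1, h2⟩ := h.2 i
  refine ⟨fun b => (M b).submatrix e e, povm_submatrix e h1, fun x => ?_⟩
  rw [prob_submatrix]
  exact h2 x

/-- **Main result.** There are `n, m ≥ 1`, `p ∈ (1/2, 1]` and an `(n, m, p)`-quantum random access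
code such that every measurement with outcomes in `{0,1}^n` has, for some `x` and `i`, probability
more than `2p(1-p)` of returning a string whose `i`-th bit differs from that of `x`. -/
theorem result : ∃ (n m : ℕ) (p : ℝ), 1 ≤ n ∧ 1 ≤ m ∧ 1 / 2 < p ∧ p ≤ 1 ∧
    ∃ ρ : (Fin n → Bool) → Matrix (Fin (2 ^ m)) (Fin (2 ^ m)) ℂ, IsQRAC n m p ρ ∧
      ∀ Q : (Fin n → Bool) → Matrix (Fin (2 ^ m)) (Fin (2 ^ m)) ℂ, IsPOVM Q →
        ∃ x i, 2 * p * (1 - p) < errProb Q ρ x i := by
  refine ⟨5, 6, 3 / 4, by norm_num, by norm_num, by norm_num, by norm_num,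
    fun x => (rho x).submatrix eqv.symm eqv.symm, code_submatrix eqv.symm rho_code, ?_⟩
  intro Q hQ
  obtain ⟨x, i, h⟩ := no_decoder (fun y => (Q y).submatrix eqv eqv) (povm_submatrix eqv hQ)
  refine ⟨x, i, ?_⟩
  have h1 : errProb Q (fun x => (rho x).submatrix eqv.symm eqv.symm) x i =
      errProb (fun y => (Q y).submatrix eqv eqv) rho x i := by
    unfold errProb
    refine Finset.sum_congr rfl fun y _ => ?_
    rw [← prob_submatrix eqv]
    congr 1
    rw [Matrix.submatrix_submatrix]
    simp
  rw [h1]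
  norm_num at h ⊢
  linarith

end Pool.Agent.Results.MP_49fc99_mp.NoPerBitDecoder
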